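import Pool.Agent.Lib_helper71.TR5.Tre
import Pool.Agent.Lib_helper34.TR5.Sum
import Pool.Agent.Lib_helper43.TR6.G0

/-!
# TREE5*, block TRE: the saddles of the graph of a plane tree are critical points of the tree
-/

set_option autoImplicit false

open Filter Topology MeasureTheory

namespace Pool.Agent.TR6.Tre

open Pool.Agent.TB hiding up
open Pool.Agent.Lib_helper61.TBL
open Pool.Agent.VM (Pr etw An An_gl)
open Pool.Agent.TR5 (AA deg sumAt Gp CritRootD Dom)
open Pool.Agent.TR5.Tre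

theorem Fiv_wt6 : (F : Forest) → TR6.Fiv F → ∀ e : Ed F, 5 ≤ |wt F e| ∨ 13 ≤ kids F e + 1
  | .cons a F G, h, e => by
    obtain ⟨h1, h3, h4⟩ := h
    refine Ed.cases' (p := fun e => 5 ≤ |wt (.cons a F G) e| ∨
      13 ≤ kids (.cons a F G) e + 1) ?_ ?_ ?_ e
    · show 5 ≤ |a| ∨ 13 ≤ kids.wid F + 1
      rw [wid_eq]
      exact h1
    · intro e
      exact Fiv_wt6 F h3 e
    · intro e
      exact Fiv_wt6 G h4 e

theorem bx_abs {v x0 : ℝ} (h : Bx v x0) : |x0| ≤ 33 / 50 ∧ |v| + |x0| ≤ 17 / 20 := by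
  obtain ⟨-, h1, h2, h3, h4⟩ := h
  rcases le_total 0 x0 with h | h
  · rw [abs_of_nonneg h]
    exact ⟨h3, h4⟩
  · rw [abs_of_nonpos h]
    constructor <;> linarith

theorem Pr_bx6 {v x0 v' y0 : ℝ} (h : Bx v x0) (h' : Bx v' y0) : Pr (gl v x0) (gl v' y0) := by
  have h1 := (bx_abs h).1
  have h2 := (bx_abs h').1
  exact TR5.pr_sgn h.2.1 h'.2.1 (by linarith) (by linarith)

theorem bxlt6 {v x0 : ℝ} (h : Bx v x0) : |v| < Real.pi / 2 := by
  have := Real.pi_gt_three
  have := h.2.1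
  linarith

theorem lb_dom6 {v x0 : ℝ} (h : Bx v x0) : lb v x0 ∈ Dom := by
  obtain ⟨h3, h4⟩ := bx_abs h
  have h1 := h.2.1
  rcases lb_cases h.1 x0 with ⟨h5, -⟩ | ⟨h5, -⟩
  · exact ⟨v, x0, h1, h3, h4, h5⟩
  · refine ⟨-v, -x0, by rw [abs_neg]; exact h1, by rw [abs_neg]; exact h3,
      by rw [abs_neg, abs_neg]; exact h4, ?_⟩
    rw [h5, gl_neg (by rw [abs_neg]; exact bxlt6 h : |-v| < Real.pi / 2), neg_neg]

theorem dG_lb6 {v x0 v' y0 : ℝ} (h : Bx v x0) (h' : Bx v' y0) :
    dG (lb v x0) (lb v' y0) = sl (lw v) * (AA v x0 v' y0 / Real.pi) := by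
  have hP := Pr_bx6 h h'
  have h1 : dG (gl v x0) (gl v' y0) = -(AA v x0 v' y0 / Real.pi) := by
    rw [hP.dG, An_gl (bxlt6 h) (bxlt6 h')]
    unfold AA
    ring
  have h2 : dG (lb v x0) (gl v' y0) = sl (lw v) * (AA v x0 v' y0 / Real.pi) := by
    rcases lb_cases h.1 x0 with ⟨h5, h6⟩ | ⟨h5, h6⟩
    · rw [h5, h6, h1]; push_cast; ring
    · rw [h5, h6, dG_neg1 hP, h1]; push_cast; ring
  rcases lb_cases h'.1 y0 with ⟨h5, -⟩ | ⟨h5, -⟩
  · rw [h5, h2]
  · rw [h5, dG_neg2, h2]

/-! ### saddles and critical points -/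

variable {F : Forest} {a : ℤ} {v x0 : Option (Ed F) → ℝ}

theorem sad_root6 (S : Sad (Pool.Agent.TR5.Tre.up F) some (wv a F) v x0) :
    Complex.I * (a * lb (v none) (x0 none) / (2 * Real.pi) + 1) +
      dsum (mkL F fun e => lb (v (some e)) (x0 (some e))) (lb (v none) (x0 none)) = 0 := by
  have h1 := crit_lb (S.crit none)
  have h2 : (sl (lw (v none)) : ℂ) * sumAt (Pool.Agent.TR5.Tre.up F) some none (fun r' =>
      AA (v none) (x0 none) (v r') (x0 r') / Real.pi) =
      dsum (mkL F fun e => lb (v (some e)) (x0 (some e))) (lb (v none) (x0 none)) := by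
    rw [dsum_mk]
    unfold sumAt
    rw [Finset.mul_sum]
    refine Finset.sum_congr rfl fun e _ => ?_
    rw [if_neg (by simp : ¬ ((some e : Option (Ed F)) = none)), add_zero]
    by_cases h : Pool.Agent.TR5.Tre.up F e = none
    · rw [if_pos h, if_pos h, dG_lb6 (S.bx _) (S.bx _)]
    · rw [if_neg h, if_neg h, mul_zero]
  rw [h2] at h1
  exact h1

theorem sad_edge6 (S : Sad (Pool.Agent.TR5.Tre.up F) some (wv a F) v x0) (e : Ed F) :
    Complex.I * (wt F e * lb (v (some e)) (x0 (some e)) / (2 * Real.pi) + 1) +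
      (∑ e', if Pool.Agent.TR5.Tre.up F e' = some e then dG (lb (v (some e)) (x0 (some e)))
        (lb (v (some e')) (x0 (some e'))) else 0) +
      dG (lb (v (some e)) (x0 (some e))) (upv F (fun e => lb (v (some e)) (x0 (some e)))
        (lb (v none) (x0 none)) e) = 0 := by
  have h1 := crit_lb (S.crit (some e))
  have h2 : (sl (lw (v (some e))) : ℂ) * sumAt (Pool.Agent.TR5.Tre.up F) some (some e) (fun r' =>
      AA (v (some e)) (x0 (some e)) (v r') (x0 r') / Real.pi) =
      (∑ e', if Pool.Agent.TR5.Tre.up F e' = some e then dG (lb (v (some e)) (x0 (some e)))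
        (lb (v (some e')) (x0 (some e'))) else 0) +
      dG (lb (v (some e)) (x0 (some e))) (upv F (fun e => lb (v (some e)) (x0 (some e)))
        (lb (v none) (x0 none)) e) := by
    unfold sumAt
    rw [Finset.sum_add_distrib, mul_add, Finset.mul_sum]
    congr 1
    · refine Finset.sum_congr rfl fun e' _ => ?_
      by_cases h : Pool.Agent.TR5.Tre.up F e' = some e
      · rw [if_pos h, if_pos h, dG_lb6 (S.bx _) (S.bx _)]
      · rw [if_neg h, if_neg h, mul_zero]
    · have h3 : ∀ e' : Ed F, (if (some e' : Option (Ed F)) = some e then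
          AA (v (some e)) (x0 (some e)) (v (Pool.Agent.TR5.Tre.up F e'))
            (x0 (Pool.Agent.TR5.Tre.up F e')) / (Real.pi : ℂ) else 0) =
          if e' = e then AA (v (some e)) (x0 (some e)) (v (Pool.Agent.TR5.Tre.up F e'))
            (x0 (Pool.Agent.TR5.Tre.up F e')) / (Real.pi : ℂ) else 0 := by
        intro e'
        simp only [Option.some.injEq]
      rw [Finset.sum_congr rfl fun e' _ => h3 e', Finset.sum_ite_eq' Finset.univ e,
        if_pos (Finset.mem_univ _), upv_lb, dG_lb6 (S.bx _) (S.bx _)]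
  rw [h2] at h1
  show Complex.I * ((wv a F (some e) : ℤ) * lb (v (some e)) (x0 (some e)) / (2 * Real.pi) + 1) +
      _ + _ = 0
  rw [add_assoc]
  exact h1

/-- **(TRE)** a saddle of the graph of a tree is a critical point of the tree -/
theorem tre_crit6 (S : Sad (Pool.Agent.TR5.Tre.up F) some (wv a F) v x0) :
    CritRootD a F (lb (v none) (x0 none)) (mkL F fun e => lb (v (some e)) (x0 (some e))) :=
  ⟨lb_dom6 (S.bx none), sad_root6 S,
    critD_mk F _ _ fun e => ⟨lb_dom6 (S.bx (some e)), sad_edge6 S e⟩⟩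

/-- **(TRE)** the critical value -/
theorem tre_act6 (S : Sad (Pool.Agent.TR5.Tre.up F) some (wv a F) v x0) :
    Gp (Pool.Agent.TR5.Tre.up F) some (wv a F) v (fun _ P => Gk P.1 P.2) x0 =
      actRoot a F (lb (v none) (x0 none)) (mkL F fun e => lb (v (some e)) (x0 (some e))) := by
  unfold Gp actRoot
  rw [Fintype.sum_option, act_mk]
  have h1 : Fe (lw (v none)) (wv a F none) (gl (v none) (x0 none)) = _ := Fe_lb _ _ _
  rw [h1]
  have h2 : ∀ e : Ed F, Complex.I * (wt F e * lb (v (some e)) (x0 (some e)) ^ 2 / (4 * Real.pi) +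
      lb (v (some e)) (x0 (some e))) + Complex.I * Real.pi * wt F e / 4 +
      Gk (lb (v (some e)) (x0 (some e))) (upv F (fun e => lb (v (some e)) (x0 (some e)))
        (lb (v none) (x0 none)) e) =
      Fe (lw (v (some e))) (wv a F (some e)) (gl (v (some e)) (x0 (some e))) +
      Gk (gl (v (Pool.Agent.TR5.Tre.up F e)) (x0 (Pool.Agent.TR5.Tre.up F e)))
        (gl (v (some e)) (x0 (some e))) := by
    intro e
    rw [upv_lb, Gk_lb (S.bx _).1 (S.bx _).1, Fe_lb]
    rfl
  rw [Finset.sum_congr rfl fun e _ => h2 e, Finset.sum_add_distrib]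
  show (_ + _) + _ = (Complex.I * (((wv a F none : ℤ) : ℂ) * _ / _ + _) + _) + (_ + _)
  rw [add_assoc]
  rfl

end Pool.Agent.TR6.Tre

namespace Pool.Agent.TR6

open Pool.Agent.TB hiding up
open Pool.Agent.TR5.Tre Tre
open Pool.Agent.TR5 (deg)

/-- **(ASY)** -/
theorem asyT (h1 : T1T) (h2 : GrT) : AsyT := by
  intro a F hF ha hFiv
  have hwid : 1 ≤ width F := by
    cases F with
    | nil => exact absurd rfl hF
    | cons b F G => rw [width]; omega
  have g1 : ∀ e, Pool.Agent.TR5.Tre.up F e ≠ some e := up_ne F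
  have g2 : ∀ r, 1 ≤ deg (Pool.Agent.TR5.Tre.up F) some r := by
    intro r
    cases r with
    | none => rw [deg_none]; exact hwid
    | some e => rw [deg_some]; omega
  have g3 : ∀ r, 5 ≤ |wv a F r| ∨ 13 ≤ deg (Pool.Agent.TR5.Tre.up F) some r := by
    intro r
    cases r with
    | none => rw [deg_none]; exact ha
    | some e => rw [deg_some]; exact Fiv_wt6 F hFiv e
  obtain ⟨v, x0, S⟩ := h1 (Option (Ed F)) (Ed F) (Pool.Agent.TR5.Tre.up F) some (wv a F) g1 g2 g3
  obtain ⟨c, hc, hlim⟩ := h2 (Option (Ed F)) (Ed F) (Pool.Agent.TR5.Tre.up F) some (wv a F)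
    (Fintype.card_option) g1 g2 g3 v x0 S
  refine ⟨_, _, c, hc, tre_crit6 S, ?_⟩
  refine hlim.congr fun N => ?_
  rw [tre_sum, tre_act6 S, show (-3 / 2 : ℂ) = -(3 / 2) by norm_num]

end Pool.Agent.TR6
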